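import Pool.Agent.Q1.BE.FamU

set_option autoImplicit false

/-!
# Points of bounded degree in families of varieties

Let `A` be a countable integral domain (the base is `Spec A`, for example `A = ℤ[t_1, ..., t_m]`) and
`FF` a finite set of forms over `A`, which define a closed subscheme of the projective space over
`A`. The homomorphisms `τ : A → L` into fields of characteristic zero are the points of the base, and
the forms `F^τ`, `F ∈ FF`, define the fibre over `τ`. Let the generic fibre be an integral variety
which is not covered by curves of gonality at most `d` (for `d = 1`: which is not uniruled, for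
example a variety of general type).
-/

namespace Pool.Agent.Results.MP_2ae8fe_ag.FamiliesOfVarieties

open Polynomial Pool.Agent.Q1.BD

/-- **One closed subset of the total space and one bound for all fibres.** For all `s, r, e` there
are a form `G` over `A`, an element `h ≠ 0` of `A` and a number `B` such that for all fields `L` of
characteristic zero and all `τ : A → L` with `τ(h) ≠ 0`: `G^τ` does not vanish on the fibre over
`τ`, and in all families `x` of points of degree at most `d` over `L` of this fibre, given by
iterated recurrences with the parameters `s, r, e`, at most `B` points are not on `G^τ = 0`. -/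
theorem result {A : Type} [CommRing A] [IsDomain A] [Countable A] {n : ℕ}
    (FF : Set (MvPolynomial (Fin (n + 1)) A)) (hfin : FF.Finite)
    (hhom : ∀ F ∈ FF, ∃ e, F.IsHomogeneous e)
    (hprime : (Ideal.span (MvPolynomial.map (algebraMap A (FractionRing A)) '' FF)).IsPrime)
    (hne : ∃ v, (MvPolynomial.X v : MvPolynomial (Fin (n + 1)) (FractionRing A)) ∉
      Ideal.span (MvPolynomial.map (algebraMap A (FractionRing A)) '' FF))
    (d : ℕ)
    (hnu : ¬ Covered (Ideal.span (MvPolynomial.map (algebraMap A (FractionRing A)) '' FF)) d)
    (s r e : ℕ) :
    ∃ (G : MvPolynomial (Fin (n + 1)) A) (h : A) (B : ℕ), (∃ e, G.IsHomogeneous e) ∧ h ≠ 0 ∧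
      ∀ (L : Type) [Field L] [CharZero L] (τ : A →+* L), τ h ≠ 0 →
        (∃ P : Fin (n + 1) → AlgebraicClosure L, P ≠ 0 ∧
          (∀ F ∈ FF, MvPolynomial.aeval P (MvPolynomial.map τ F) = 0) ∧
          MvPolynomial.aeval P (MvPolynomial.map τ G) ≠ 0) ∧
        ∀ (H : Type) [Group H] (x : H → Jx n d → L), IterFam s r e x →
          (∀ g α, (Pol (bar (x g))).eval α = 0 → ∀ F ∈ FF,
            MvPolynomial.aeval (Num (bar (x g)) α) (MvPolynomial.map τ F) = 0) →
          (rootPts (MvPolynomial.map τ G) x).encard ≤ (B : ℕ∞) :=
  fam_strong FF hfin hhom hprime hne d hnu s r e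

end Pool.Agent.Results.MP_2ae8fe_ag.FamiliesOfVarieties
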