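import Pool.Agent.TH138.LG.Main
import Pool.Agent.TH138.LG.Conv

set_option autoImplicit false

/-!
# Lang's conjecture for points whose digit expansions form an iterative language

Let `X` be the integral closed subvariety of projective `n`-space over a field `k` of characteristic
zero (for instance a number field) given by the homogeneous polynomials in the finite set `FF`.

A word in the letters of an alphabet `A` and separators represents a point over an extension field
`L` of `k`, in a number system with an arbitrary base `b ∈ L` that is not a root of unity
(`Pool/Agent/TH138/LG/Read.lean`): in phase `i` (after `i` separators) a letter `a` replaces each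
homogeneous coordinate `x j` that is active in this phase by `b * x j + δ i a j`; so the coordinates
are given by their digits in base `b`, most significant digits first, and they may be written one
after the other, simultaneously, or in groups.

A language is `s`-iterative (with constant `p`) if every word with at least `p` letters contains `s`
subwords, not all empty, which can be simultaneously repeated `k` times, for each `k ≥ 0`, without
leaving the language.  Regular languages are `1`-iterative and context-free languages are
`2`-iterative by the pumping lemmas; no grammar or automaton is required here.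

(1) If `X` is not uniruled (for instance of general type), then for each `s` there is ONE
hypersurface `G = 0` not containing `X` such that, for all fields `L ⊇ k`, all bases, all digit
systems and all `s`-iterative languages with a bounded number of separators all of whose words
represent points of `X`: the points off `G = 0` are represented by the words with less than `p`
letters.  In particular there are only finitely many of them if the alphabet is finite.

(2) If `X` is uniruled, then there is an iterative language over a finite alphabet, read in base two
in one phase, all of whose words represent points of `X`, such that for every hypersurface not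
containing `X` infinitely many of these points are not on the hypersurface.

Method: the words with repeated subwords represent the points with parameters `b ^ k` of a curve with
`2 ^ s` terms, which lies in `X`; all such curves which are not constant lie in one hypersurface
`G = 0`; if the curve is constant, then the word can be shortened.
-/

namespace Pool.Agent.Results.MP_2ae8fe_ag.IterativeDigitLanguages

open MvPolynomial Pool.Agent.H533R3.SL Pool.Agent.TH138.LG

theorem result (k : Type) [Field k] [CharZero k] (n : ℕ)
    (FF : Finset (MvPolynomial (Fin (n + 1)) k))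
    (hprime : (Ideal.span (FF : Set (MvPolynomial (Fin (n + 1)) k))).IsPrime)
    (hhom : ∀ F ∈ FF, ∃ e, F.IsHomogeneous e) :
    (¬ Uniruled (Ideal.span (FF : Set (MvPolynomial (Fin (n + 1)) k))) →
      ∀ s : ℕ, ∃ G : MvPolynomial (Fin (n + 1)) k, (∃ e, G.IsHomogeneous e) ∧
        G ∉ Ideal.span (FF : Set (MvPolynomial (Fin (n + 1)) k)) ∧
        ∀ (L : Type) [Field L] [Algebra k L] (b : L), b ≠ 0 → (∀ m : ℕ, 0 < m → b ^ m ≠ 1) →
          ∀ (A : Type) (act : ℕ → Fin (n + 1) → Bool) (δ : ℕ → A → Fin (n + 1) → L)
            (𝓛 : Set (List (Option A))) (p : ℕ),
          (∃ m, ∀ w ∈ 𝓛, w.countP Option.isNone ≤ m) →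
          (∀ w ∈ 𝓛, value b act δ w ≠ 0 ∧ ∀ F ∈ FF, aeval (value b act δ w) F = 0) →
          Iterative s p 𝓛 →
          offPts b act δ 𝓛 G = offPts b act δ {w | w ∈ 𝓛 ∧ w.length < p} G ∧
          (Finite A → (offPts b act δ 𝓛 G).Finite)) ∧
    (Uniruled (Ideal.span (FF : Set (MvPolynomial (Fin (n + 1)) k))) →
      ∃ (L : Type) (_ : Field L) (_ : Algebra k L) (A : Type) (_ : Finite A)
        (δ : ℕ → A → Fin (n + 1) → L) (s p : ℕ) (𝓛 : Set (List (Option A))),
        Iterative s p 𝓛 ∧ (∀ w ∈ 𝓛, w.countP Option.isNone = 0) ∧
        (∀ w ∈ 𝓛, value (2 : L) (fun _ _ => true) δ w ≠ 0 ∧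
          ∀ F ∈ FF, aeval (value (2 : L) (fun _ _ => true) δ w) F = 0) ∧
        ∀ G : MvPolynomial (Fin (n + 1)) k, (∃ e, G.IsHomogeneous e) →
          G ∉ Ideal.span (FF : Set (MvPolynomial (Fin (n + 1)) k)) →
          (offPts (2 : L) (fun _ _ => true) δ 𝓛 G).Infinite) := by
  classical
  refine ⟨fun hnu s => ?_, fun hu => ?_⟩
  · choose! e he using hhom
    obtain ⟨G, ⟨g, hG1⟩, hG2, hG3⟩ := exists_hyper (FF : Set (MvPolynomial (Fin (n + 1)) k)) hprime
      hnu (FF.sup e + 1) (by omega)
      (fun F hF => ⟨e F, (Finset.le_sup (f := e) hF).trans (by omega), he F hF⟩) (2 ^ s)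
    refine ⟨G, ⟨g, hG1⟩, hG2, ?_⟩
    intro L _ _ b hb0 hb A act δ 𝓛 p hsep hX hit
    have h := points_short (FF : Set (MvPolynomial (Fin (n + 1)) k)) s p G g hG1
      (fun c l => hG3 L c l) b hb0 hb act δ 𝓛 hsep hX hit
    refine ⟨h, fun hA => ?_⟩
    rw [h]
    exact offPts_finite b act δ 𝓛 p G
  · obtain ⟨L, hL, hA, A, hAf, δ, s, p, 𝓛, h1, h2, h3, h4⟩ := dense_language _ hu
    exact ⟨L, hL, hA, A, hAf, δ, s, p, 𝓛, h1, h2,
      fun w hw => ⟨(h3 w hw).1, fun F hF => (h3 w hw).2 F (Ideal.subset_span hF)⟩,
      fun G hG hGI => h4 G hG hGI⟩

end Pool.Agent.Results.MP_2ae8fe_ag.IterativeDigitLanguages
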