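import Mathlib
import Pool.Agent.Q13.DS.Cons
import Pool.Agent.Q13.DS.EB

/-!
# Rational points given by linear recurrences over difference fields

Let `X` be the projective variety `{G = 0, G ∈ FF}` in projective `N`-space over a field `F ⊂ ℂ`, for
instance `F = ℚ`, and let `x m` be a sequence of points of `X` over `F`, whose homogeneous
coordinates satisfy linear recurrences with coefficients in `B`.

Here `B` is a field of sequences (modulo sequences which are eventually zero) which is closed under
the shift and has transcendence degree at most `d` over the constants (`CoefField B`, `TrLe B d`).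

(1) If `X` has dimension greater than `d` and is of general type, or more generally has a nonzero
pluricanonical form, or more generally is not uniruled, then the points `x m` are not Zariski
dense in `X`: they lie on a hypersurface over `F` which does not contain `X`.

(2) If no subvariety of `X` of dimension greater than `d` is uniruled (for instance if all
subvarieties are of general type, or if `X` contains no rational curves), then the Zariski closure
of the points `x m` has dimension at most `d`: any `d + 2` of the homogeneous coordinates satisfy a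
nontrivial homogeneous relation over `F` on all points `x m`.

(3) The coefficients can be the values of polynomials in `m` and `q₁ ^ m, …, q_s ^ m`, where the
`q i` are positive real numbers, and then `d = s + 1`.
-/

set_option autoImplicit false

namespace Pool.Agent.Results.MP_2ae8fe_ag.RecurrenceSequences

open MvPolynomial Filter FF Pool.Agent.TH143.GT Pool.Agent.W602.GT Pool.Agent.W603.GR
  Pool.Agent.TH143.DE Pool.Agent.Q13.DS

/-- The ideal over `ℂ` generated by the forms in `FF`. -/
noncomputable def idealC {F : Type} [Field F] [Algebra F ℂ] {N : ℕ}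
    (FF : Set (MvPolynomial (Fin (N + 1)) F)) : Ideal (MvPolynomial (Fin (N + 1)) ℂ) :=
  (Ideal.span FF).map (MvPolynomial.map (algebraMap F ℂ))

/-- The projective varieties with the function field `K`, of dimension `w`, have a nonzero
pluricanonical form (nonnegative Kodaira dimension; in particular this holds for varieties of
general type), or they are not uniruled. -/
def Good (K : Type) [Field K] [Algebra ℂ K] (w : ℕ) : Prop :=
  (∃ e : ℕ, 0 < e ∧ ∃ ω : (Fin w → Derivation ℂ K K) → K, Pluricanonical w e ω ∧ ω ≠ 0) ∨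
    ¬ Covered K

/-- `X` is a variety (over `ℂ`) of dimension greater than `d`, and it has a nonzero pluricanonical
form or is not uniruled. -/
def GoodVariety {N : ℕ} (p : Ideal (MvPolynomial (Fin (N + 1)) ℂ)) (d : ℕ) : Prop :=
  ∃ (K : Type) (_ : Field K) (_ : Algebra ℂ K) (w : ℕ) (y : Fin (N + 1) → K),
    FunField p 1 K w y ∧ d < w ∧ Good K w

/-- All subvarieties of dimension greater than `d` have nonzero pluricanonical forms or are not
uniruled. Here the subvarieties are given by their function fields `K` and generic points `y`. -/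
def GoodSubvarieties {N : ℕ} (p : Ideal (MvPolynomial (Fin (N + 1)) ℂ)) (d : ℕ) : Prop :=
  ∀ (K : Type) [Field K] [Algebra ℂ K] (v : ℕ) (y : Fin (N + 1) → K), SubVarP p 1 K v y →
    d < v → Good K v

/-- The conclusions about a sequence of points: (1) and (2) above. -/
def Conclusion {F : Type} [Field F] [Algebra F ℂ] {N : ℕ}
    (FF : Set (MvPolynomial (Fin (N + 1)) F)) (d : ℕ) (x : ℕ → Fin (N + 1) → F) : Prop :=
  (GoodVariety (idealC FF) d → ∃ G : MvPolynomial (Fin (N + 1)) F, IsForm G ∧
    G ∉ Ideal.span FF ∧ ∀ m, eval (x m) G = 0) ∧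
  (GoodSubvarieties (idealC FF) d → ∀ J : Fin (d + 2) → Fin (N + 1),
    ∃ H : MvPolynomial (Fin (d + 2)) F, IsForm H ∧ H ≠ 0 ∧
      ∀ m, eval (fun i => x m (J i)) H = 0)

/-- The value at `(m, q₁ ^ m, …, q_s ^ m)` of a polynomial. -/
noncomputable def expVal {s : ℕ} (q : Fin s → ℝ) (P : MvPolynomial (Option (Fin s)) ℂ) (m : ℕ) :
    ℂ :=
  eval (fun o => o.elim (m : ℂ) fun i => ((q i : ℝ) : ℂ) ^ m) P

theorem hyper_one {B : Subalgebra ℂ (ℕ → ℂ)} {N : ℕ} (x : ℕ → Fin (N + 1) → ℂ) :
    Hyper B 1 x :=
  ⟨Eventually.of_forall fun m => by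
    rw [map_one]
    exact one_ne_zero, 1, B.one_mem, Eventually.of_forall fun m => by
    rw [map_one, map_one, Pi.one_apply, one_mul]⟩

theorem flat_of_good {N : ℕ} {p : Ideal (MvPolynomial (Fin (N + 1)) ℂ)} {K : Type} [Field K]
    [Algebra ℂ K] {w : ℕ} {y : Fin (N + 1) → K} (hy : FunField p 1 K w y) (h : Good K w) (r : K) :
    AllFlat 1 y r := by
  by_contra hr
  rcases h with ⟨e, he, ω, hω, h0⟩ | h
  · exact h0 (sec_zero' hy hr he hω)
  · exact h (covered' hy hr)

theorem main {F : Type} [Field F] [Algebra F ℂ] {N : ℕ}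
    (FF : Set (MvPolynomial (Fin (N + 1)) F)) (hFF : ∀ G ∈ FF, IsForm G)
    (B : Subalgebra ℂ (ℕ → ℂ)) (hB : CoefField B) (d : ℕ) (hd : TrLe B d)
    (x : ℕ → Fin (N + 1) → F) (hX : ∀ m, ∀ G ∈ FF, eval (x m) G = 0)
    (hrec : ∀ j, LinRec B (fun m => algebraMap F ℂ (x m j))) : Conclusion FF d x := by
  have hXc : ∀ m, ∀ G ∈ idealC FF, eval (cpt x m) G = 0 := by
    intro m
    change idealC FF ≤ RingHom.ker (eval (cpt x m))
    unfold idealC
    rw [Ideal.map_span, Ideal.span_le]
    rintro _ ⟨G, hG, rfl⟩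
    change eval (cpt x m) (MvPolynomial.map (algebraMap F ℂ) G) = 0
    rw [eval_cpt, hX m G hG, map_zero]
  have h1Q : (1 : MvPolynomial (Fin (N + 1)) ℂ).IsHomogeneous 0 := isHomogeneous_one _ _
  refine ⟨?_, fun hsub J => ?_⟩
  · rintro ⟨K, _, _, w, y, hy, hw, hgood⟩
    by_contra hcon
    push Not at hcon
    have h1 : SeqDense (idealC FF) (cpt x) := by
      refine seqDense_of fun G hG h0 => ?_
      by_contra hG0
      obtain ⟨m, hm⟩ := hcon G hG hG0
      exact hm (h0 m)
    obtain ⟨r, hr⟩ := main_seq hB hd h1Q hy hw hrec (Eventually.of_forall hXc)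
      (hyper_one _) (h1.tail hy (by omega))
    exact hr (flat_of_good hy hgood r)
  · by_contra hcon
    push Not at hcon
    have hJ : ∀ H : MvPolynomial (Fin (d + 1 + 1)) ℂ, IsForm H → H ≠ 0 →
        ¬ ∀ᶠ m in atTop, eval (fun i => cpt x m (J i)) H = 0 := by
      intro H hH h0 hz
      obtain ⟨H', h1, h2, h3⟩ := tail_form (fun m i => cpt x m (J i)) hH h0 hz
      obtain ⟨H'', h4, h5, h6⟩ := form_descend (u := fun m i => x m (J i)) h1 h2 h3
      obtain ⟨m, hm⟩ := hcon H'' h4 h5
      exact hm (h6 m)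
    obtain ⟨K, _, _, v, y, hy0, hgen, hdim, hdv, hoff, hforms, r, hr⟩ :=
      closure_dir hB hd h1Q hrec (hyper_one _) J hJ
    have hsv : SubVarP (idealC FF) 1 K v y := by
      refine ⟨hy0, fun G hG => ?_, hoff, hgen, hdim⟩
      have h1 : idealC FF ≤ RingHom.ker (aeval y : MvPolynomial (Fin (N + 1)) ℂ →ₐ[ℂ] K) := by
        unfold idealC
        rw [Ideal.map_span, Ideal.span_le]
        rintro _ ⟨G, hG, rfl⟩
        obtain ⟨e, he⟩ := hFF G hG
        exact hforms _ ⟨e, he.map _⟩ (Eventually.of_forall fun m =>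
          hXc m _ (Ideal.mem_map_of_mem _ (Ideal.subset_span hG)))
      exact h1 hG
    have hfun : FunField (RingHom.ker (aeval y : MvPolynomial (Fin (N + 1)) ℂ →ₐ[ℂ] K)) 1 K v y :=
      ⟨⟨hy0, fun G hG => hG, hoff, hgen, hdim⟩, fun G _ h0 => h0⟩
    exact hr (flat_of_good hfun (hsub K v y hsv hdv) r)

theorem result (F : Type) [Field F] [Algebra F ℂ] (N : ℕ)
    (FF : Set (MvPolynomial (Fin (N + 1)) F)) (hFF : ∀ G ∈ FF, IsForm G)
    (x : ℕ → Fin (N + 1) → F) (hX : ∀ m, ∀ G ∈ FF, eval (x m) G = 0) :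
    (∀ (B : Subalgebra ℂ (ℕ → ℂ)) (d : ℕ), CoefField B → TrLe B d →
      (∀ j, LinRec B (fun m => algebraMap F ℂ (x m j))) → Conclusion FF d x) ∧
    (∀ (s : ℕ) (q : Fin s → ℝ), (∀ i, 0 < q i) →
      (∀ j, ∃ (r : ℕ) (a : ℕ → MvPolynomial (Option (Fin s)) ℂ),
        (∃ k ≤ r, ∃ᶠ m in atTop, expVal q (a k) m ≠ 0) ∧
        ∀ m, ∑ k ∈ Finset.range (r + 1), expVal q (a k) m * algebraMap F ℂ (x (m + k) j) = 0) →
      Conclusion FF (s + 1) x) := by
  refine ⟨fun B d hB hd hrec => main FF hFF B hB d hd x hX hrec, fun s q hq hrec => ?_⟩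
  refine main FF hFF (expB q) (expB_field hq) (s + 1) (expB_tr q) x hX fun j => ?_
  obtain ⟨r, a, ⟨k, hk, hk0⟩, h⟩ := hrec j
  exact ⟨r, fun k m => expVal q (a k) m, fun k => expB_poly q (a k), ⟨k, hk, fun h0 =>
    hk0 (h0.mono fun m h1 h2 => h2 h1)⟩, Eventually.of_forall h⟩

end Pool.Agent.Results.MP_2ae8fe_ag.RecurrenceSequences
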