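import Pool.Agent.Q309.DU.Run

set_option autoImplicit false

/-!
# Rational points on varieties which are not uniruled: recurrences with polynomial coefficients

We consider sequences `x 0, x 1, ...` of points of the projective `n`-space over a field `L` such that
(`DSeq r e B x`) each of the `n + 1` sequences of homogeneous coordinates satisfies a nontrivial linear
recurrence `∑ P_k (t m) x (m + k) j = 0`, `k ≤ r`, at least for `m ≤ B`. Here the `P_k` are polynomials
of degree at most `e` over `L`, and `t 0, ..., t B` are different elements of `L` with
`t (m + 1) = α t m + β`; for instance `t m = m` (P-recursive sequences) or `t m = q ^ m`.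

Let `X` be an integral closed subvariety of the projective `n`-space over `ℂ`, given by forms `FF`
which span a prime ideal. The following are equivalent:

(1) `X` is not uniruled;

(2) for every `d` one proper closed subset `X ∩ {G = 0}` contains all nonconstant rational curves of
degree at most `d` on `X`;

(3) (`PtDeg`) for all `r`, `e` there are ONE proper closed subset `X ∩ {G = 0}` and ONE number `B` such
that for ALL fields `L` embedded in `ℂ` and all sequences of `L`-rational points of `X` with
`DSeq r e B x`, one of the points `x 0, ..., x B` is in `G = 0` or two of them are equal.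

Descent: let `X` be a geometrically integral projective variety over a subfield `F` of `ℂ`, for
instance a number field, such that `X` is (geometrically) not uniruled, for instance `X` is of general
type. For all `r`, `e` there are a proper closed subset `X ∩ {G = 0}`, defined over `F`, and a number
`B` such that for all sequences of `F`-rational points of `X` with `DSeq r e B x`, one of the points
`x 0, ..., x B` is in `G = 0` or two of them are equal.
-/

namespace Pool.Agent.Results.MP_2ae8fe_ag.RunsNotUniruled

open MvPolynomial Pool.Agent.H533R3.SL Pool.Agent.Q1.SL Pool.Agent.Q309.DU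

theorem result (n : ℕ) :
    (∀ FF : Set (MvPolynomial (Fin (n + 1)) ℂ), (∀ P ∈ FF, ∃ e, P.IsHomogeneous e) →
      (Ideal.span FF).IsPrime →
      List.TFAE [¬ Uniruled (Ideal.span FF), RatDeg (Ideal.span FF), PtDeg (Ideal.span FF)]) ∧
    ∀ (F : Type) [Field F] [Algebra F ℂ] (FF : Set (MvPolynomial (Fin (n + 1)) F)),
      (∀ P ∈ FF, ∃ e, P.IsHomogeneous e) →
      ((Ideal.span FF).map (MvPolynomial.map (algebraMap F ℂ))).IsPrime →
      ¬ Uniruled ((Ideal.span FF).map (MvPolynomial.map (algebraMap F ℂ))) →
      ∀ r e : ℕ, ∃ (G : MvPolynomial (Fin (n + 1)) F) (B : ℕ), (∃ d, G.IsHomogeneous d) ∧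
        G ∉ Ideal.span FF ∧ ∀ x : ℕ → Fin (n + 1) → F, DSeq r e B x →
          (∀ m ≤ B, ∀ P ∈ FF, eval (x m) P = 0) →
          (∃ m ≤ B, eval (x m) G = 0) ∨
            ∃ i j, i < j ∧ j ≤ B ∧ ∀ u v, x i u * x j v = x i v * x j u :=
  ⟨fun FF hhom hprime => pt_tfae FF hhom hprime,
    fun _ _ _ FF hhom hprime hnu r e => pt_descend FF hhom hprime hnu r e⟩

end Pool.Agent.Results.MP_2ae8fe_ag.RunsNotUniruled
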